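import Mathlib

/-! The nonlinearity `g(u) = e^u χ(u)`, `χ(u) = A(1 - A(1 + u))`, `A(x) = (x₊)²`. -/

set_option autoImplicit false
open MeasureTheory Filter Topology Set
open scoped ENNReal

namespace Pool.Agent.W2helper24.AD

/-- `A(x) = (x₊)²` -/
noncomputable def AA (x : ℝ) : ℝ := (max 0 x) ^ 2

lemma hasDerivAt_AA (x : ℝ) : HasDerivAt AA (2 * max 0 x) x := by
  rcases lt_trichotomy x 0 with hx | hx | hx
  · have h : AA =ᶠ[𝓝 x] fun _ => 0 := by
      filter_upwards [Iio_mem_nhds hx] with y hy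
      have hy' : y ≤ 0 := le_of_lt (mem_Iio.1 hy)
      simp [AA, max_eq_left hy']
    have h2 : (2 * max 0 x) = 0 := by rw [max_eq_left hx.le]; ring
    rw [h2]
    exact (hasDerivAt_const x (0 : ℝ)).congr_of_eventuallyEq h
  · subst hx
    simp only [max_self, mul_zero]
    rw [hasDerivAt_iff_isLittleO_nhds_zero]
    simp only [zero_add, smul_zero, sub_zero]
    have : AA 0 = 0 := by simp [AA]
    rw [this]
    simp only [sub_zero]
    have h1 : AA =O[𝓝 0] fun h : ℝ => h ^ 2 := by
      refine Asymptotics.IsBigO.of_bound 1 (Eventually.of_forall fun h => ?_)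
      rw [one_mul, Real.norm_eq_abs, Real.norm_eq_abs, abs_of_nonneg (sq_nonneg h)]
      unfold AA
      rw [abs_of_nonneg (sq_nonneg _)]
      rcases le_total 0 h with h0 | h0
      · rw [max_eq_right h0]
      · rw [max_eq_left h0]; nlinarith [sq_nonneg h]
    refine h1.trans_isLittleO ?_
    exact Asymptotics.isLittleO_pow_id (by norm_num)
  · have h : AA =ᶠ[𝓝 x] fun y => y ^ 2 := by
      filter_upwards [Ioi_mem_nhds hx] with y hy
      have hy' : 0 ≤ y := le_of_lt (mem_Ioi.1 hy)
      simp [AA, max_eq_right hy']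
    have h2 : (2 * max 0 x) = 2 * x := by rw [max_eq_right hx.le]
    rw [h2]
    have h3 := (hasDerivAt_pow 2 x)
    refine (h3.congr_of_eventuallyEq h).congr_deriv ?_
    norm_num

lemma contDiff_AA : ContDiff ℝ 1 AA := by
  rw [contDiff_one_iff_deriv]
  refine ⟨fun x => (hasDerivAt_AA x).differentiableAt, ?_⟩
  have : deriv AA = fun x => 2 * max 0 x := funext fun x => (hasDerivAt_AA x).deriv
  rw [this]
  fun_prop

/-- the cut-off `χ` -/
noncomputable def chi (u : ℝ) : ℝ := AA (1 - AA (1 + u))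

lemma contDiff_chi : ContDiff ℝ 1 chi :=
  contDiff_AA.comp (contDiff_const.sub (contDiff_AA.comp (contDiff_const.add contDiff_id)))

lemma hasDerivAt_chi (u : ℝ) : HasDerivAt chi
    (-(2 * max 0 (1 - AA (1 + u)) * (2 * max 0 (1 + u)))) u := by
  have h1 : HasDerivAt (fun u : ℝ => 1 + u) 1 u := by
    simpa using (hasDerivAt_id u).const_add 1
  have h2 := (hasDerivAt_AA (1 + u)).comp u h1
  have h3 := h2.const_sub 1
  have h4 := (hasDerivAt_AA (1 - AA (1 + u))).comp u h3
  refine h4.congr_deriv ?_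
  ring

lemma AA_nonneg (x : ℝ) : 0 ≤ AA x := by unfold AA; positivity

lemma AA_le_one {x : ℝ} (hx : x ≤ 1) : AA x ≤ 1 := by
  unfold AA
  have h1 : max 0 x ≤ 1 := max_le zero_le_one hx
  have h0 : 0 ≤ max 0 x := le_max_left _ _
  nlinarith

lemma chi_nonneg (u : ℝ) : 0 ≤ chi u := AA_nonneg _

lemma chi_le_one (u : ℝ) : chi u ≤ 1 := AA_le_one (by linarith [AA_nonneg (1 + u)])

lemma chi_eq_one {u : ℝ} (hu : u ≤ -1) : chi u = 1 := by
  have : AA (1 + u) = 0 := by simp [AA, max_eq_left (show 1 + u ≤ 0 by linarith)]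
  unfold chi
  rw [this]
  simp [AA]

lemma chi_zero {u : ℝ} (hu : 0 ≤ u) : chi u = 0 := by
  have h1 : 1 ≤ AA (1 + u) := by
    unfold AA
    rw [max_eq_right (by linarith)]
    nlinarith
  unfold chi
  have : max 0 (1 - AA (1 + u)) = 0 := max_eq_left (by linarith)
  unfold AA at this ⊢
  rw [this]; norm_num

lemma chi_pos {u : ℝ} (hu : u < 0) : 0 < chi u := by
  have h1 : AA (1 + u) < 1 := by
    unfold AA
    have h1 : max 0 (1 + u) < 1 := max_lt zero_lt_one (by linarith)
    have h0 : 0 ≤ max 0 (1 + u) := le_max_left _ _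
    nlinarith
  unfold chi
  have : 0 < max 0 (1 - AA (1 + u)) := lt_max_of_lt_right (by linarith)
  have h2 : AA (1 - AA (1 + u)) = (max 0 (1 - AA (1 + u))) ^ 2 := rfl
  rw [h2]
  positivity

/-- derivative of `χ` -/
noncomputable def chi' (u : ℝ) : ℝ := -(2 * max 0 (1 - AA (1 + u)) * (2 * max 0 (1 + u)))

lemma chi'_nonpos (u : ℝ) : chi' u ≤ 0 := by
  unfold chi'
  have : 0 ≤ max 0 (1 - AA (1 + u)) := le_max_left _ _
  have : 0 ≤ max 0 (1 + u) := le_max_left _ _
  have : 0 ≤ 2 * max 0 (1 - AA (1 + u)) * (2 * max 0 (1 + u)) := by positivity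
  linarith

lemma chi'_ge (u : ℝ) : -4 ≤ chi' u := by
  unfold chi'
  rcases le_total 0 u with hu | hu
  · have h1 : 1 ≤ AA (1 + u) := by
      unfold AA
      rw [max_eq_right (by linarith)]
      nlinarith
    rw [max_eq_left (show 1 - AA (1 + u) ≤ 0 by linarith)]
    norm_num
  · have h1 : max 0 (1 - AA (1 + u)) ≤ 1 := max_le zero_le_one (by linarith [AA_nonneg (1 + u)])
    have h2 : max 0 (1 + u) ≤ 1 := max_le zero_le_one (by linarith)
    have h3 : 0 ≤ max 0 (1 - AA (1 + u)) := le_max_left _ _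
    have h4 : 0 ≤ max 0 (1 + u) := le_max_left _ _
    nlinarith

lemma continuous_chi' : Continuous chi' := by
  have h : Continuous AA := contDiff_AA.continuous
  unfold chi'
  fun_prop

/-- the function `g` -/
noncomputable def gg (u : ℝ) : ℝ := Real.exp u * chi u

/-- the derivative of `g` -/
noncomputable def gg' (u : ℝ) : ℝ := Real.exp u * (chi u + chi' u)

lemma contDiff_gg : ContDiff ℝ 1 gg := Real.contDiff_exp.mul contDiff_chi

lemma hasDerivAt_gg (u : ℝ) : HasDerivAt gg (gg' u) u := by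
  have := (Real.hasDerivAt_exp u).mul (hasDerivAt_chi u)
  refine this.congr_deriv ?_
  unfold gg' chi'
  ring

lemma gg_nonneg (u : ℝ) : 0 ≤ gg u := mul_nonneg (Real.exp_pos u).le (chi_nonneg u)

lemma gg_le_exp (u : ℝ) : gg u ≤ Real.exp u := by
  unfold gg
  have := chi_le_one u
  have := Real.exp_pos u
  nlinarith

lemma gg_eq_exp {u : ℝ} (hu : u ≤ -1) : gg u = Real.exp u := by
  unfold gg; rw [chi_eq_one hu, mul_one]

lemma gg_bound (u : ℝ) : |gg u| + |gg' u| ≤ 6 := by
  rcases le_total 0 u with hu | hu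
  · have h1 : chi' u = 0 := by
      unfold chi'
      have h1 : 1 ≤ AA (1 + u) := by
        unfold AA
        rw [max_eq_right (by linarith)]
        nlinarith
      rw [max_eq_left (show 1 - AA (1 + u) ≤ 0 by linarith)]
      ring
    unfold gg gg'
    rw [chi_zero hu, h1]
    norm_num
  · have he : Real.exp u ≤ 1 := Real.exp_le_one_iff.2 hu
    have he0 := Real.exp_pos u
    have h1 := chi_nonneg u
    have h2 := chi_le_one u
    have h3 := chi'_nonpos u
    have h4 := chi'_ge u
    have a1 : |gg u| ≤ 1 := by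
      rw [abs_of_nonneg (gg_nonneg u)]
      exact (gg_le_exp u).trans he
    have a2 : |gg' u| ≤ 5 := by
      unfold gg'
      rw [abs_mul, abs_of_pos he0]
      have : |chi u + chi' u| ≤ 5 := by rw [abs_le]; constructor <;> linarith
      nlinarith [abs_nonneg (chi u + chi' u)]
    linarith

lemma gg'_le_gg (u : ℝ) : gg' u ≤ gg u := by
  unfold gg gg'
  have := chi'_nonpos u
  have := Real.exp_pos u
  nlinarith

lemma gg'_nonpos {u : ℝ} (h1 : -(1 / 2) ≤ u) (h2 : u ≤ 0) : gg' u ≤ 0 := by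
  unfold gg'
  have he := Real.exp_pos u
  have : chi u + chi' u ≤ 0 := by
    have hm : AA (1 + u) = (1 + u) ^ 2 := by
      unfold AA; rw [max_eq_right (by linarith)]
    have hx : 0 ≤ 1 - AA (1 + u) := by rw [hm]; nlinarith
    unfold chi chi'
    rw [max_eq_right hx, max_eq_right (show (0:ℝ) ≤ 1 + u by linarith)]
    unfold AA at *
    rw [max_eq_right hx, hm]
    nlinarith [mul_nonneg (show 0 ≤ -u by linarith) (show 0 ≤ 2 + u by linarith)]
  nlinarith

lemma gg'_pos {u : ℝ} (hu : u < -1) : 0 < gg' u := by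
  unfold gg'
  have h1 : chi' u = 0 := by
    unfold chi'
    rw [max_eq_left (show 1 + u ≤ 0 by linarith)]
    ring
  rw [chi_eq_one hu.le, h1]
  have := Real.exp_pos u
  linarith

lemma integrableOn_gg (u : ℝ) : IntegrableOn gg (Iic u) := by
  refine Integrable.mono' (g := Real.exp) (integrableOn_exp_Iic u) ?_ ?_
  · exact contDiff_gg.continuous.aestronglyMeasurable.restrict
  · refine Eventually.of_forall fun x => ?_
    rw [Real.norm_eq_abs, abs_of_nonneg (gg_nonneg x)]
    exact gg_le_exp x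

lemma integrableOn_gg' (u : ℝ) : IntegrableOn gg' (Iic u) := by
  refine Integrable.mono' (g := fun x => 5 * Real.exp x) ((integrableOn_exp_Iic u).const_mul 5) ?_ ?_
  · have : Continuous gg' := by
      unfold gg'
      exact Real.continuous_exp.mul (contDiff_chi.continuous.add continuous_chi')
    exact this.aestronglyMeasurable.restrict
  · refine Eventually.of_forall fun x => ?_
    unfold gg'
    rw [Real.norm_eq_abs, abs_mul, abs_of_pos (Real.exp_pos x), mul_comm]
    have h1 := chi_nonneg x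
    have h2 := chi_le_one x
    have h3 := chi'_nonpos x
    have h4 := chi'_ge x
    have : |chi x + chi' x| ≤ 5 := by rw [abs_le]; constructor <;> linarith
    have := Real.exp_pos x
    nlinarith

lemma tendsto_gg : Tendsto gg atBot (𝓝 0) := by
  refine squeeze_zero gg_nonneg gg_le_exp Real.tendsto_exp_atBot

/-- `G₀ ≥ g` -/
lemma gg_le_G0 (u : ℝ) : gg u ≤ ∫ x in Iic u, gg x := by
  have h1 : ∫ x in Iic u, gg' x = gg u - 0 :=
    integral_Iic_of_hasDerivAt_of_tendsto' (fun x _ => hasDerivAt_gg x) (integrableOn_gg' u)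
      tendsto_gg
  have h2 : ∫ x in Iic u, gg' x ≤ ∫ x in Iic u, gg x :=
    integral_mono (integrableOn_gg' u) (integrableOn_gg u) (fun x => gg'_le_gg x)
  linarith

lemma G0_eq {u : ℝ} (hu : u ≤ -1) : ∫ x in Iic u, gg x = Real.exp u := by
  have : ∫ x in Iic u, gg x = ∫ x in Iic u, Real.exp x := by
    refine setIntegral_congr_fun measurableSet_Iic fun x hx => ?_
    exact gg_eq_exp (le_trans hx hu)
  rw [this, integral_exp_Iic]

/-- finiteness of `∫₀^∞ e^{a t} g(-M t) dt` for `M > a` -/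
lemma J_lt {a M : ℝ} (hM : a < M) :
    ∫⁻ t in Ioi (0 : ℝ), ENNReal.ofReal (Real.exp (a * t) * gg (-(M * t))) < ⊤ := by
  have h1 : IntegrableOn (fun t : ℝ => Real.exp (-(M - a) * t)) (Ioi 0) :=
    exp_neg_integrableOn_Ioi 0 (by linarith)
  have h2 : ∫⁻ t in Ioi (0 : ℝ), ENNReal.ofReal (Real.exp (a * t) * gg (-(M * t))) ≤
      ∫⁻ t in Ioi (0 : ℝ), ENNReal.ofReal (Real.exp (-(M - a) * t)) := by
    refine lintegral_mono fun t => ENNReal.ofReal_le_ofReal ?_
    have := gg_le_exp (-(M * t))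
    calc Real.exp (a * t) * gg (-(M * t)) ≤ Real.exp (a * t) * Real.exp (-(M * t)) := by
          gcongr
      _ = Real.exp (-(M - a) * t) := by rw [← Real.exp_add]; congr 1; ring
  refine lt_of_le_of_lt h2 ?_
  have h3 := h1.2
  rw [hasFiniteIntegral_iff_ofReal (Eventually.of_forall fun t => (Real.exp_pos _).le)] at h3
  exact h3

/-- divergence of `∫₀^∞ e^{a t} g(-M t) dt` for `0 < M ≤ a` -/
lemma J_top {a M : ℝ} (hM0 : 0 < M) (hM : M ≤ a) :
    ∫⁻ t in Ioi (0 : ℝ), ENNReal.ofReal (Real.exp (a * t) * gg (-(M * t))) = ⊤ := by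
  rw [eq_top_iff]
  have h1 : ∫⁻ t in Ioi (1 / M : ℝ), (1 : ℝ≥0∞) = ⊤ := by simp
  rw [← h1]
  calc ∫⁻ t in Ioi (1 / M : ℝ), (1 : ℝ≥0∞)
      ≤ ∫⁻ t in Ioi (1 / M : ℝ), ENNReal.ofReal (Real.exp (a * t) * gg (-(M * t))) := by
        refine setLIntegral_mono_ae' measurableSet_Ioi (Eventually.of_forall fun t ht => ?_)
        have ht : 1 / M < t := ht
        have h2 : 1 < M * t := by
          rw [div_lt_iff₀ hM0] at ht; linarith
        have ht0 : 0 < t := lt_trans (by positivity) ht
        rw [gg_eq_exp (by linarith), ← Real.exp_add]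
        rw [← ENNReal.ofReal_one]
        apply ENNReal.ofReal_le_ofReal
        apply Real.one_le_exp
        nlinarith
    _ ≤ _ := lintegral_mono_set (Ioi_subset_Ioi (by positivity))

end Pool.Agent.W2helper24.AD
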