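import Pool.Agent.H314.CS.Dist

/-! Laplacian of the Liouville-type function `log (1 + L |z^m - 1|^2)` on the plane. -/

set_option autoImplicit false
open MeasureTheory Laplacian InnerProductSpace Filter Topology Set

namespace Pool.Agent.W2helper24.AD

abbrev E2 := EuclideanSpace ℝ (Fin 2)

/-- the complex coordinate -/
noncomputable def toC (x : E2) : ℂ := (x 0 : ℂ) + (x 1 : ℂ) * Complex.I

lemma toC_re (x : E2) : (toC x).re = x 0 := by simp [toC]
lemma toC_im (x : E2) : (toC x).im = x 1 := by simp [toC]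

lemma norm_toC (x : E2) : ‖toC x‖ = ‖x‖ := by
  rw [EuclideanSpace.norm_eq, Complex.norm_def, Complex.normSq_apply, toC_re, toC_im]
  simp [sq]

lemma contDiff_toC {n : WithTop ℕ∞} : ContDiff ℝ n toC := by
  unfold toC
  have h0 : ContDiff ℝ n (fun x : E2 => x 0) := (EuclideanSpace.proj (𝕜 := ℝ) (0 : Fin 2)).contDiff
  have h1 : ContDiff ℝ n (fun x : E2 => x 1) := (EuclideanSpace.proj (𝕜 := ℝ) (1 : Fin 2)).contDiff
  exact (Complex.ofRealCLM.contDiff.comp h0).add
    ((Complex.ofRealCLM.contDiff.comp h1).mul contDiff_const)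

/-- the two coordinate directions as complex numbers -/
noncomputable def om (i : Fin 2) : ℂ := if i = 0 then 1 else Complex.I

lemma toC_line (x : E2) (i : Fin 2) (s : ℝ) :
    toC (x + s • EuclideanSpace.single i (1 : ℝ)) = toC x + s * om i := by
  fin_cases i
  · simp [toC, om]; ring
  · simp [toC, om]; ring

/-- The Laplacian as a sum of second derivatives along coordinate lines. -/
lemma lap_line {f : E2 → ℝ} (hf : ContDiff ℝ 2 f) (x : E2) (g : Fin 2 → ℝ → ℝ) (s : Fin 2 → ℝ)
    (h1 : ∀ i t, HasDerivAt (fun t : ℝ => f (x + t • EuclideanSpace.single i (1 : ℝ))) (g i t) t)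
    (h2 : ∀ i, HasDerivAt (g i) (s i) 0) : Δ f x = s 0 + s 1 := by
  rw [laplacian_eq_iteratedFDeriv_orthonormalBasis f (EuclideanSpace.basisFun (Fin 2) ℝ)]
  beta_reduce
  rw [Fin.sum_univ_two]
  have key : ∀ i : Fin 2, iteratedFDeriv ℝ 2 f x
      ![EuclideanSpace.single i (1 : ℝ), EuclideanSpace.single i (1 : ℝ)] = s i := by
    intro i
    set e : E2 := EuclideanSpace.single i (1 : ℝ)
    rw [iteratedFDeriv_two_apply]
    have hd : Differentiable ℝ f := hf.differentiable (by norm_num)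
    have hd2 : Differentiable ℝ (fderiv ℝ f) :=
      (hf.fderiv_right (m := 1) (by norm_num)).differentiable (by norm_num)
    have hline : ∀ t : ℝ, HasDerivAt (fun t : ℝ => x + t • e) e t := by
      intro t
      have := ((hasDerivAt_id t).smul_const e).const_add x
      simpa using this
    have e1 : ∀ t : ℝ, g i t = fderiv ℝ f (x + t • e) e := by
      intro t
      have h3 := (hd (x + t • e)).hasFDerivAt.comp_hasDerivAt t (hline t)
      exact (h1 i t).unique h3
    have h4 : HasDerivAt (fun t : ℝ => fderiv ℝ f (x + t • e))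
        (fderiv ℝ (fderiv ℝ f) (x + (0 : ℝ) • e) e) 0 :=
      (hd2 (x + (0 : ℝ) • e)).hasFDerivAt.comp_hasDerivAt 0 (hline 0)
    have h5 : HasDerivAt (fun t : ℝ => fderiv ℝ f (x + t • e) e)
        (fderiv ℝ (fderiv ℝ f) (x + (0 : ℝ) • e) e e) 0 := by
      have := h4.clm_apply (hasDerivAt_const (0 : ℝ) e)
      simpa using this
    have h6 : g i = fun t : ℝ => fderiv ℝ f (x + t • e) e := funext e1
    have h7 := h2 i
    rw [h6] at h7
    have := h7.unique h5
    simp only [zero_smul, add_zero] at this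
    simpa using this.symm
  have k0 := key 0
  have k1 := key 1
  simp only [EuclideanSpace.basisFun_apply] 
  convert congrArg₂ (· + ·) k0 k1 using 2

/-- the function `|z^m - 1|^2` -/
noncomputable def PP (m : ℕ) (x : E2) : ℝ := Complex.normSq ((toC x) ^ m - 1)

lemma PP_nonneg (m : ℕ) (x : E2) : 0 ≤ PP m x := Complex.normSq_nonneg _

lemma contDiff_PP {n : WithTop ℕ∞} (m : ℕ) : ContDiff ℝ n (PP m) := by
  unfold PP
  have h : ContDiff ℝ n (fun x : E2 => (toC x) ^ m - 1) := (contDiff_toC.pow m).sub contDiff_const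
  have hre := Complex.reCLM.contDiff.comp h
  have him := Complex.imCLM.contDiff.comp h
  have : (fun x : E2 => Complex.normSq ((toC x) ^ m - 1)) = fun x =>
      ((toC x) ^ m - 1).re * ((toC x) ^ m - 1).re + ((toC x) ^ m - 1).im * ((toC x) ^ m - 1).im := by
    funext x; rw [Complex.normSq_apply]
  rw [this]
  exact (hre.mul hre).add (him.mul him)

/-- `log (1 + L |z^m - 1|^2)` -/
noncomputable def LP (L : ℝ) (m : ℕ) (x : E2) : ℝ := Real.log (1 + L * PP m x)

lemma one_add_pos {L : ℝ} (hL : 0 < L) (m : ℕ) (x : E2) : 0 < 1 + L * PP m x := by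
  have := PP_nonneg m x; positivity

lemma contDiff_LP {n : WithTop ℕ∞} {L : ℝ} (hL : 0 < L) (m : ℕ) : ContDiff ℝ n (LP L m) := by
  unfold LP
  exact (contDiff_const.add (contDiff_const.mul (contDiff_PP m))).log
    (fun x => (one_add_pos hL m x).ne')

/-- derivative of the squared modulus of a complex valued function of a real variable -/
lemma hasDerivAt_normSq {H : ℝ → ℂ} {H' : ℂ} {t : ℝ} (h : HasDerivAt H H' t) :
    HasDerivAt (fun t => Complex.normSq (H t)) (2 * ((H t).re * H'.re + (H t).im * H'.im)) t := by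
  have hre : HasDerivAt (fun t => (H t).re) H'.re t :=
    Complex.reCLM.hasFDerivAt.comp_hasDerivAt t h
  have him : HasDerivAt (fun t => (H t).im) H'.im t :=
    Complex.imCLM.hasFDerivAt.comp_hasDerivAt t h
  have := (hre.mul hre).add (him.mul him)
  have e : (fun t => Complex.normSq (H t)) = fun t => (H t).re * (H t).re + (H t).im * (H t).im := by
    funext t; rw [Complex.normSq_apply]
  rw [e]
  exact this.congr_deriv (by ring)

/-- **Liouville.** `Δ log (1 + L |z^m - 1|²) = 4 L m² |z|^(2m-2) / (1 + L |z^m - 1|²)²`. -/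
lemma lap_LP {L : ℝ} (hL : 0 < L) (b : ℕ) (x : E2) :
    Δ (LP L (b + 1)) x =
      4 * L * ((b : ℝ) + 1) ^ 2 * ‖x‖ ^ (2 * b) / (1 + L * PP (b + 1) x) ^ 2 := by
  set z : ℂ := toC x with hz
  -- the functions on the coordinate lines
  set H : Fin 2 → ℝ → ℂ := fun i t => (z + t * om i) ^ (b + 1) - 1 with hH
  set H1 : Fin 2 → ℝ → ℂ := fun i t => ((b : ℂ) + 1) * (z + t * om i) ^ b * om i with hH1
  set H2 : Fin 2 → ℂ := fun i => ((b : ℂ) + 1) * ((b : ℂ) * z ^ (b - 1) * om i) * om i with hH2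
  have dl : ∀ i t, HasDerivAt (fun t : ℝ => z + (t : ℂ) * om i) (om i) t := by
    intro i t
    have h0 : HasDerivAt (fun t : ℝ => (t : ℂ)) 1 t := Complex.ofRealCLM.hasDerivAt
    have := (h0.mul_const (om i)).const_add z
    simpa using this
  have dH : ∀ i t, HasDerivAt (H i) (H1 i t) t := by
    intro i t
    have := ((dl i t).pow (b + 1)).sub_const 1
    refine this.congr_deriv ?_
    simp [hH1]
  have dH1 : ∀ i, HasDerivAt (H1 i) (H2 i) 0 := by
    intro i
    have := (((dl i 0).pow b).const_mul ((b : ℂ) + 1)).mul_const (om i)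
    refine this.congr_deriv ?_
    simp [hH2]
  have hline : ∀ i t, LP L (b + 1) (x + t • EuclideanSpace.single i (1 : ℝ)) =
      Real.log (1 + L * Complex.normSq (H i t)) := by
    intro i t
    unfold LP PP
    rw [toC_line]
  set g : Fin 2 → ℝ → ℝ := fun i t =>
    (L * (2 * ((H i t).re * (H1 i t).re + (H i t).im * (H1 i t).im))) /
      (1 + L * Complex.normSq (H i t)) with hg
  have hpos : ∀ i t, 0 < 1 + L * Complex.normSq (H i t) := by
    intro i t
    have := Complex.normSq_nonneg (H i t)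
    positivity
  have hd1 : ∀ i t, HasDerivAt (fun t : ℝ => LP L (b + 1) (x + t • EuclideanSpace.single i (1 : ℝ)))
      (g i t) t := by
    intro i t
    have h1 := ((hasDerivAt_normSq (dH i t)).const_mul L).const_add 1
    have h2 := h1.log (hpos i t).ne'
    have e : (fun t : ℝ => LP L (b + 1) (x + t • EuclideanSpace.single i (1 : ℝ))) =
        fun t => Real.log (1 + L * Complex.normSq (H i t)) := funext (hline i)
    rw [e]
    exact h2
  have hd2 : ∀ i, HasDerivAt (g i)
      (((L * (2 * (((H1 i 0).re * (H1 i 0).re + (H i 0).re * (H2 i).re) +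
          ((H1 i 0).im * (H1 i 0).im + (H i 0).im * (H2 i).im)))) *
            (1 + L * Complex.normSq (H i 0)) -
          (L * (2 * ((H i 0).re * (H1 i 0).re + (H i 0).im * (H1 i 0).im))) *
          (L * (2 * ((H i 0).re * (H1 i 0).re + (H i 0).im * (H1 i 0).im)))) /
        (1 + L * Complex.normSq (H i 0)) ^ 2) 0 := by
    intro i
    have r0 : HasDerivAt (fun t => (H i t).re) (H1 i 0).re 0 :=
      Complex.reCLM.hasFDerivAt.comp_hasDerivAt 0 (dH i 0)
    have i0 : HasDerivAt (fun t => (H i t).im) (H1 i 0).im 0 :=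
      Complex.imCLM.hasFDerivAt.comp_hasDerivAt 0 (dH i 0)
    have r1 : HasDerivAt (fun t => (H1 i t).re) (H2 i).re 0 :=
      Complex.reCLM.hasFDerivAt.comp_hasDerivAt 0 (dH1 i)
    have i1 : HasDerivAt (fun t => (H1 i t).im) (H2 i).im 0 :=
      Complex.imCLM.hasFDerivAt.comp_hasDerivAt 0 (dH1 i)
    have hn := ((((r0.mul r1).add (i0.mul i1)).const_mul 2).const_mul L)
    have hdn := ((hasDerivAt_normSq (dH i 0)).const_mul L).const_add 1
    have := hn.div hdn (hpos i 0).ne'
    exact this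
  rw [lap_line (contDiff_LP hL (b + 1)) x g _ hd1 hd2]
  have z0 : H 0 0 = z ^ (b + 1) - 1 := by simp [hH]
  have z1 : H 1 0 = z ^ (b + 1) - 1 := by simp [hH]
  have w0 : H1 0 0 = ((b : ℂ) + 1) * z ^ b := by simp [hH1, om]
  have w1 : H1 1 0 = ((b : ℂ) + 1) * z ^ b * Complex.I := by simp [hH1, om]
  have v0 : H2 0 = ((b : ℂ) + 1) * ((b : ℂ) * z ^ (b - 1)) := by simp [hH2, om]
  have v1 : H2 1 = - (((b : ℂ) + 1) * ((b : ℂ) * z ^ (b - 1))) := by
    have o1 : om 1 = Complex.I := by simp [om]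
    have : H2 1 = ((b : ℂ) + 1) * ((b : ℂ) * z ^ (b - 1)) * (Complex.I * Complex.I) := by
      simp only [hH2, o1]; ring
    rw [this, Complex.I_mul_I]; ring
  rw [z0, z1, w0, w1, v0, v1]
  have hP : PP (b + 1) x = Complex.normSq (z ^ (b + 1) - 1) := rfl
  rw [hP]
  set a : ℂ := z ^ (b + 1) - 1
  set w : ℂ := ((b : ℂ) + 1) * z ^ b with hw
  set v : ℂ := ((b : ℂ) + 1) * ((b : ℂ) * z ^ (b - 1))
  have hwn : Complex.normSq w = ((b : ℝ) + 1) ^ 2 * ‖x‖ ^ (2 * b) := by
    rw [hw, Complex.normSq_mul, map_pow, Complex.normSq_eq_norm_sq z, hz, norm_toC]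
    have : Complex.normSq ((b : ℂ) + 1) = ((b : ℝ) + 1) ^ 2 := by
      have h : ((b : ℂ) + 1) = (((b : ℝ) + 1 : ℝ) : ℂ) := by push_cast; ring
      rw [h, Complex.normSq_ofReal]; ring
    rw [this]
    ring
  have hne : (1 + L * Complex.normSq a) ≠ 0 := by
    have := Complex.normSq_nonneg a
    positivity
  have hI1 : (w * Complex.I).re = - w.im := by simp
  have hI2 : (w * Complex.I).im = w.re := by simp
  rw [hI1, hI2, Complex.neg_re, Complex.neg_im, ← add_div]
  have hgoal : 4 * L * ((b : ℝ) + 1) ^ 2 * ‖x‖ ^ (2 * b) = 4 * L * Complex.normSq w := by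
    rw [hwn]; ring
  rw [hgoal]
  congr 1
  rw [Complex.normSq_apply w, Complex.normSq_apply a]
  ring

end Pool.Agent.W2helper24.AD
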